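import Pool.Agent.N481.VT.FO

set_option autoImplicit false

/-!
# Vaught's conjecture for towers of initial segments with few automorphisms

Vaught's conjecture, perfect-set form, for countable structures with a definable total preorder
whose initial segments have only countably many automorphisms.

(1) Let `B` be an isomorphism-invariant Borel class of countable structures (in a countable
relational language with relations of arbitrary arities), and let `D k` (`k ∈ ℕ`) be countably many
Borel and equivariant ways to define a binary relation on a structure from finitely many parameters.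
If in every structure in `B` one of these relations is, for suitable parameters, a total preorder all
of whose initial segments `{n | n ≤ m}` have only countably many automorphisms, then `B` has
countably many isomorphism types or contains a perfect set of pairwise non-isomorphic structures.
(2) In particular this holds for every first-order theory in a countable relational language such
that each model with universe `ℕ` has a total preorder of this kind which is first-order definable
with parameters; the formula and the parameters may depend on the model.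

The preorder need not have a well-ordered quotient, the whole structures may have uncountably many
automorphisms, and their isomorphism relation need not be Borel. (If all structures in `B` have only
countably many automorphisms, then the isomorphism relation on `B` is Borel, and the dichotomy
is Silver's theorem.) The proof uses the starting files `Pool.Agent.Y560.TT` (back-and-forth analysis
of towers), `Pool.Agent.TH425.FF` (parameters and countable unions); that a countable automorphism
group has a finite base is proved with the Baire category theorem.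
-/

namespace Pool.Agent.Results.MP_5df2c5_lc.Towers

open FirstOrder

/-- Relational structures on `ℕ` with relations of arities `a 0, a 1, ...`. -/
abbrev Str (a : ℕ → ℕ) : Type := (i : ℕ) → (Fin (a i) → ℕ) → Bool

/-- `σ` is an isomorphism from `x` to `y`. -/
def IsIso {a : ℕ → ℕ} (σ : Equiv.Perm ℕ) (x y : Str a) : Prop :=
  ∀ (i : ℕ) (v : Fin (a i) → ℕ), y i (⇑σ ∘ v) = x i v

/-- Isomorphism of structures. -/
def Iso {a : ℕ → ℕ} (x y : Str a) : Prop := ∃ σ : Equiv.Perm ℕ, IsIso σ x y

/-- Relabelling of a structure by a permutation. -/
def act {a : ℕ → ℕ} (σ : Equiv.Perm ℕ) (x : Str a) : Str a := fun i v => x i (⇑σ.symm ∘ v)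

/-- The class `B` has countably many isomorphism types, or there is a continuous family of pairwise
non-isomorphic members of `B` indexed by the Cantor space. -/
def CountableOrPerfect {a : ℕ → ℕ} (B : Set (Str a)) : Prop :=
  (∃ f : ℕ → Str a, ∀ x ∈ B, ∃ n, Iso (f n) x) ∨
  (∃ g : (ℕ → Bool) → Str a, Continuous g ∧ (∀ c, g c ∈ B) ∧ ∀ c d, Iso (g c) (g d) → c = d)

/-- `D` is a total preorder of `ℕ`. -/
structure TotalPreorder (D : ℕ → ℕ → Prop) : Prop where
  total : ∀ u v, D u v ∨ D v u
  trans : ∀ u v w, D u v → D v w → D u w

/-- The automorphisms of the initial segment `{n | D n m}` of `(x, D)`: the permutations of the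
segment that preserve the relations of `x` between its elements, and the preorder. -/
def SegmentAut {a : ℕ → ℕ} (x : Str a) (D : ℕ → ℕ → Prop) (m : ℕ) : Set (Equiv.Perm {n // D n m}) :=
  {σ | (∀ (i : ℕ) (v : Fin (a i) → {n // D n m}),
      x i (fun k => (σ (v k) : ℕ)) = x i fun k => (v k : ℕ)) ∧
    ∀ u v, D (σ u) (σ v) ↔ D u v}

/-- Binary relations on structures which are defined from finitely many parameters in a Borel way
that commutes with the permutations of `ℕ` (by the theorem of Lopez-Escobar, these are the relations
defined by formulas of `L_ω₁ω`). -/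
structure Definable {a : ℕ → ℕ} (D : List ℕ → Str a → ℕ → ℕ → Prop) : Prop where
  borel : ∀ p m n, MeasurableSet {x | D p x m n}
  equivariant : ∀ p x (σ : Equiv.Perm ℕ) m n, D (p.map σ) (act σ x) (σ m) (σ n) ↔ D p x m n

/-- Vaught's conjecture, perfect-set form, for the theory `T` in the language `L` (the body of the
frozen statement): the models with universe `ℕ` fall into countably many isomorphism classes, or
some continuous family of models, indexed by the Cantor space, consists of pairwise
non-isomorphic models. -/
def Dichotomy (L : FirstOrder.Language.{0, 0}) (T : L.Theory) : Prop :=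
  (∃ g : ℕ → L.Structure ℕ, ∀ S : L.Structure ℕ,
      @FirstOrder.Language.Theory.Model L ℕ S T →
        ∃ n : ℕ, Nonempty (@FirstOrder.Language.Equiv L ℕ ℕ S (g n))) ∨
  (∃ f : (ℕ → Bool) → L.Structure ℕ,
      (∀ x : ℕ → Bool, @FirstOrder.Language.Theory.Model L ℕ (f x) T) ∧
      (∀ x y : ℕ → Bool,
          Nonempty (@FirstOrder.Language.Equiv L ℕ ℕ (f x) (f y)) → x = y) ∧
      (∀ (n : ℕ) (R : L.Relations n) (a : Fin n → ℕ),
          IsClopen {x : ℕ → Bool | @FirstOrder.Language.Structure.RelMap L ℕ (f x) n R a}) ∧
      (∀ (n : ℕ) (F : L.Functions n) (a : Fin n → ℕ) (b : ℕ),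
          IsOpen {x : ℕ → Bool | @FirstOrder.Language.Structure.funMap L ℕ (f x) n F a = b}))

/-- The relation that the formula `φ` defines in the structure `S` with the parameters `p`. -/
def Defined {L : FirstOrder.Language.{0, 0}} (S : L.Structure ℕ) {k : ℕ}
    (φ : L.Formula (Fin k ⊕ Fin 2)) (p : Fin k → ℕ) (u v : ℕ) : Prop :=
  @FirstOrder.Language.Formula.Realize L ℕ S _ φ (Sum.elim p ![u, v])

/-- The automorphisms of the initial segment `{n | D n m}` of `(S, D)`: the permutations of the
segment that preserve the relations of `S` between its elements, and the preorder. -/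
def SegmentAutFO {L : FirstOrder.Language.{0, 0}} (S : L.Structure ℕ) (D : ℕ → ℕ → Prop) (m : ℕ) :
    Set (Equiv.Perm {n // D n m}) :=
  {σ | (∀ (n : ℕ) (R : L.Relations n) (v : Fin n → {n // D n m}),
      @FirstOrder.Language.Structure.RelMap L ℕ S n R (fun k => (σ (v k) : ℕ)) ↔
        @FirstOrder.Language.Structure.RelMap L ℕ S n R fun k => (v k : ℕ)) ∧
    ∀ u v, D (σ u) (σ v) ↔ D u v}

theorem result :
    (∀ (a : ℕ → ℕ) (D : ℕ → List ℕ → Str a → ℕ → ℕ → Prop), (∀ k, Definable (D k)) →
      ∀ B : Set (Str a), MeasurableSet B → (∀ x y, Iso x y → (x ∈ B ↔ y ∈ B)) →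
        (∀ x ∈ B, ∃ k p, TotalPreorder (D k p x) ∧ ∀ m, (SegmentAut x (D k p x) m).Countable) →
        CountableOrPerfect B) ∧
    (∀ L : FirstOrder.Language.{0, 0}, Countable L.Symbols → L.IsRelational → ∀ T : L.Theory,
      (∀ S : L.Structure ℕ, @FirstOrder.Language.Theory.Model L ℕ S T →
        ∃ (k : ℕ) (φ : L.Formula (Fin k ⊕ Fin 2)) (p : Fin k → ℕ),
          TotalPreorder (Defined S φ p) ∧ ∀ m, (SegmentAutFO S (Defined S φ p) m).Countable) →
      Dichotomy L T) := by
  refine ⟨fun a D hD B hB hi h => ?_, fun L hL hR T hT => ?_⟩
  · have h1 : Pool.Agent.N481.VT.Fam D := ⟨fun k => (hD k).borel, fun k => (hD k).equivariant⟩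
    refine Pool.Agent.H533R2.VS.vs_plain _ _ (Pool.Agent.N481.VT.wt_all h1).1 B hB hi
      fun x hx => ?_
    obtain ⟨k, p, h2, h3⟩ := h x hx
    exact ⟨k, p, ⟨h2.total, h2.trans⟩, h3⟩
  · have hc : Countable (Σ n, L.Relations n) := by
      have hL' : Countable ((Σ n, L.Functions n) ⊕ Σ n, L.Relations n) := hL
      exact (Sum.inr_injective (α := Σ n, L.Functions n) (β := Σ n, L.Relations n)).countable
    rcases Pool.Agent.N481.VT.FO.dichotomy hc T (fun S hS => by
      obtain ⟨k, φ, p, h1, h2⟩ := hT S hS
      exact ⟨k, φ, p, Defined S φ p, fun _ _ => Iff.rfl, ⟨h1.total, h1.trans⟩, h2⟩) with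
      h | ⟨f, h1, h2, h3⟩
    · exact Or.inl h
    · exact Or.inr ⟨f, h1, h2, h3, fun n F => isEmptyElim F⟩

end Pool.Agent.Results.MP_5df2c5_lc.Towers
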