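import Pool.Agent.N481.GV.SumS
import Pool.Agent.N481.GV.Quad

/-!
# Additive structure of dense sets of integers with rough polynomial values

Let `f_1, ..., f_g` be admissible polynomials, for instance `X ^ 2 + 1`, or `X` and `4 X ^ 2 + 1`, and let `δ > 0`.
We consider arbitrary finite or infinite sets of integers `n` for which all prime factors of all `f_i (n)` are at least
`n ^ δ` and which have the right order of magnitude `X / log ^ g X` up to `X`.

(A) All such sets in `[1, X]` have additive energy at most `C X ^ 3 / log ^ (4 g) X`, the order of magnitude for random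
sets of this size.

(B) For all nonzero `u, v` and every set `P ⊆ T × T'` of at least `η X ^ 2 / log ^ (2 g) X` pairs of elements of two
such sets, a positive proportion of the integers `n` of size `X` has at least `c X / log ^ (2 g) X` representations
`n = u a + v b` with `(a, b) ∈ P` (the right order of magnitude).

(C) For every such infinite set `S` the sums of two elements have positive lower density, `S ∪ {1}` is an additive
basis of finite order, and if `g ≥ 2` the multiples `α S` have Poissonian pair correlations for almost all `α` (for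
`g = 1` and the primes this is false by a theorem of Walker).

(D) The almost prime values, and the primes `p` for which `4 p ^ 2 + 1` is an almost prime, satisfy the hypotheses with
`g` and with `g = 2`.

The base is `Pool.Agent.X69.Ric` of the starting library (correlations of dense sets of rough values); new are (B), and
the first two statements of (C).
-/

set_option autoImplicit false

namespace Pool.Agent.Results.MP_f1a94e_nt.AdditiveStructure

open Filter MeasureTheory Polynomial Topology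

/-- The polynomials `f i` are irreducible and nonconstant, different, have positive leading coefficients and no prime
divides one of the `f i (n)` for every `n`. -/
structure Admissible {g : ℕ} (f : Fin g → ℤ[X]) : Prop where
  irreducible : ∀ i, Irreducible (f i)
  nonconstant : ∀ i, 0 < (f i).natDegree
  leading : ∀ i, 0 < (f i).leadingCoeff
  different : Function.Injective f
  noFixedDivisor : ∀ p : ℕ, p.Prime → ∃ n : ℕ, ∀ i, ¬ (p : ℤ) ∣ (f i).eval (n : ℤ)

/-- All the prime factors of all the `f i (n)` are at least `n ^ δ`. -/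
def Rough {g : ℕ} (f : Fin g → ℤ[X]) (δ : ℝ) (n : ℕ) : Prop :=
  ∀ i, ∀ p : ℕ, p.Prime → (p : ℤ) ∣ (f i).eval (n : ℤ) → (n : ℝ) ^ δ ≤ p

/-- `S` has at least `c X / log ^ g X` elements up to `X`, for some `c > 0` and all large `X`. -/
def Many (g : ℕ) (S : Set ℕ) : Prop :=
  ∃ c : ℝ, 0 < c ∧ ∀ᶠ X : ℕ in atTop, c * X / Real.log X ^ g ≤ ((S ∩ Set.Icc 1 X).ncard : ℝ)

/-- The additive energy: the number of the quadruples of elements `a, b, c, d` of `T` with `a - b = c - d`. -/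
def energy (T : Finset ℕ) : ℕ :=
  (((T ×ˢ T) ×ˢ (T ×ˢ T)).filter (fun q => (q.1.1 : ℤ) - q.1.2 = (q.2.1 : ℤ) - q.2.2)).card

/-- The number of the representations `n = u a + v b` with `(a, b) ∈ P`. -/
def representations (u v : ℤ) (P : Finset (ℕ × ℕ)) (n : ℤ) : ℕ :=
  (P.filter (fun q => u * q.1 + v * q.2 = n)).card

/-- The element number `k` of `S`, from `k = 0`. -/
noncomputable def el (S : Set ℕ) (k : ℕ) : ℕ := Nat.nth (· ∈ S) k

/-- The distance to the nearest integer. -/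
noncomputable def dist1 (x : ℝ) : ℝ := |x - round x|

/-- The multiples of `α` by the elements of `S` have Poissonian pair correlations modulo 1. -/
def Poissonian (S : Set ℕ) (α : ℝ) : Prop := ∀ s : ℝ, 0 < s →
  Tendsto (fun N : ℕ => (1 / (N : ℝ)) * (((Finset.range N ×ˢ Finset.range N).filter
    (fun p => p.1 ≠ p.2 ∧ dist1 ((el S p.1 : ℝ) * α - (el S p.2 : ℝ) * α) < s / N)).card : ℝ)) atTop (𝓝 (2 * s))

/-- The `n` for which every `f i (n)` has at most `r` prime factors, counted with multiplicity, all of them larger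
than `n ^ (1 / r)`. -/
def Almost {g : ℕ} (f : Fin g → ℤ[X]) (r : ℕ) : Set ℕ :=
  {n | ∀ i, ArithmeticFunction.cardFactors ((f i).eval (n : ℤ)).natAbs ≤ r ∧
    ∀ p : ℕ, p.Prime → (p : ℤ) ∣ (f i).eval (n : ℤ) → (n : ℝ) ^ (1 / (r : ℝ)) < p}

/-- The primes `p` for which `(2 p) ^ 2 + 1` has at most `r` prime factors, counted with multiplicity, all of them
larger than `p ^ (1 / r)`. -/
def AlmostAtPrimes (r : ℕ) : Set ℕ :=
  {p | p.Prime ∧ ArithmeticFunction.cardFactors (4 * p ^ 2 + 1) ≤ r ∧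
    ∀ q : ℕ, q.Prime → q ∣ 4 * p ^ 2 + 1 → (p : ℝ) ^ (1 / (r : ℝ)) < q}

/-- **Additive structure** of dense sets of integers with rough values. -/
theorem result : Admissible ![(X ^ 2 + 1 : ℤ[X])] ∧ Admissible ![(X : ℤ[X]), 4 * X ^ 2 + 1] ∧
    (∀ g : ℕ, 1 ≤ g → ∀ f : Fin g → ℤ[X], Admissible f → ∀ δ : ℝ, 0 < δ →
      (∃ C : ℝ, 0 < C ∧ ∀ᶠ X : ℕ in atTop, ∀ T : Finset ℕ, T ⊆ Finset.Icc 1 X → (∀ n ∈ T, Rough f δ n) →
        (energy T : ℝ) ≤ C * ((X : ℝ) ^ 3 / Real.log X ^ (4 * g))) ∧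
      (∀ (η : ℝ) (u v : ℤ), 0 < η → u ≠ 0 → v ≠ 0 → ∃ c : ℝ, 0 < c ∧ ∀ᶠ X : ℕ in atTop,
        ∀ T T' : Finset ℕ, T ⊆ Finset.Icc 1 X → T' ⊆ Finset.Icc 1 X → (∀ n ∈ T, Rough f δ n) →
        (∀ n ∈ T', Rough f δ n) → ∀ P : Finset (ℕ × ℕ), P ⊆ T ×ˢ T' →
        η * ((X : ℝ) ^ 2 / Real.log X ^ (2 * g)) ≤ P.card →
        c * X ≤ ({n : ℤ | c * (X / Real.log X ^ (2 * g)) ≤ (representations u v P n : ℝ)}.ncard : ℝ)) ∧
      ∀ S : Set ℕ, (∀ n ∈ S, Rough f δ n) → Many g S →
        (∃ c : ℝ, 0 < c ∧ ∀ᶠ X : ℕ in atTop,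
          c * X ≤ ({n : ℕ | n ≤ X ∧ ∃ a ∈ S, ∃ b ∈ S, a + b = n}.ncard : ℝ)) ∧
        (∃ k : ℕ, ∀ n : ℕ, ∃ l : List ℕ, l.length ≤ k ∧ (∀ a ∈ l, a = 1 ∨ a ∈ S) ∧ l.sum = n) ∧
        (2 ≤ g → ∀ᵐ α : ℝ, Poissonian S α)) ∧
    (∀ g : ℕ, 1 ≤ g → ∀ f : Fin g → ℤ[X], Admissible f → ∃ r₀ : ℕ, ∀ r : ℕ, r₀ ≤ r →
      Many g (Almost f r) ∧ ∀ n ∈ Almost f r, Rough f (1 / (r : ℝ)) n) ∧
    ∃ r₀ : ℕ, ∀ r : ℕ, r₀ ≤ r → Many 2 (AlmostAtPrimes r) ∧
      ∀ p ∈ AlmostAtPrimes r, Rough ![(X : ℤ[X]), 4 * X ^ 2 + 1] (1 / (r : ℝ)) p := by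
  have hadm : ∀ g : ℕ, ∀ f : Fin g → ℤ[X], Admissible f → Pool.Agent.W123.RU.Poly.Sys f :=
    fun g f hf => ⟨hf.irreducible, hf.nonconstant, hf.leading, hf.different, hf.noFixedDivisor⟩
  refine ⟨⟨?_, ?_, ?_, fun _ _ _ => Subsingleton.elim _ _, fun p hp => ⟨0, ?_⟩⟩, ⟨?_, ?_, ?_, ?_, fun p hp => ?_⟩,
    fun g hg f hf δ hδ => ⟨?_, fun η u v hη hu hv => ?_, fun S hS hM => ⟨?_, ?_, fun hg2 => ?_⟩⟩,
    fun g hg f hf => ?_, ?_⟩
  · intro i
    fin_cases i
    exact Pool.Agent.N481.GV.irr_one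
  · intro i
    fin_cases i
    show 0 < (X ^ 2 + 1 : ℤ[X]).natDegree
    rw [Pool.Agent.N481.GV.deg_one]; norm_num
  · intro i
    fin_cases i
    show 0 < (X ^ 2 + 1 : ℤ[X]).leadingCoeff
    rw [Pool.Agent.N481.GV.lead_one]; norm_num
  · intro i
    fin_cases i
    exact Pool.Agent.N481.GV.adm_one p hp
  · intro i
    fin_cases i
    · exact irreducible_X
    · exact Pool.Agent.N481.GV.irr_four
  · intro i
    fin_cases i
    · show 0 < (X : ℤ[X]).natDegree
      rw [natDegree_X]; norm_num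
    · show 0 < (4 * X ^ 2 + 1 : ℤ[X]).natDegree
      rw [Pool.Agent.N481.GV.deg_four]; norm_num
  · intro i
    fin_cases i
    · show 0 < (X : ℤ[X]).leadingCoeff
      rw [leadingCoeff_X]; norm_num
    · show 0 < (4 * X ^ 2 + 1 : ℤ[X]).leadingCoeff
      rw [Pool.Agent.N481.GV.lead_four]; norm_num
  · have hne : (X : ℤ[X]) ≠ 4 * X ^ 2 + 1 := by
      intro h
      have h1 := congrArg natDegree h
      rw [Pool.Agent.N481.GV.deg_four, natDegree_X] at h1
      omega
    intro i j hij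
    fin_cases i <;> fin_cases j
    · rfl
    · exact absurd hij hne
    · exact absurd hij.symm hne
    · rfl
  · obtain ⟨m, h1, h2⟩ := Pool.Agent.N481.GV.adm_four p hp
    refine ⟨m, fun i => ?_⟩
    fin_cases i
    · show ¬ (p : ℤ) ∣ (X : ℤ[X]).eval (m : ℤ)
      rw [eval_X]
      exact fun h => h1 (Int.natCast_dvd_natCast.1 h)
    · exact h2
  · obtain ⟨C, hC, h⟩ := Pool.Agent.N481.GV.coll_rough f hg (hadm g f hf) δ hδ
    refine ⟨C, hC, ?_⟩
    filter_upwards [h] with X hX T hT hR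
    exact hX T (fun n hn => (Finset.mem_Icc.1 (hT hn)).2) hR
  · obtain ⟨c, hc, h⟩ := Pool.Agent.N481.GV.pop_rough f hg (hadm g f hf) δ η hδ hη u v hu hv
    refine ⟨c, hc, ?_⟩
    filter_upwards [h] with X hX T T' hT hT' hR hR' P hP hPc
    exact hX T T' (fun n hn => (Finset.mem_Icc.1 (hT hn)).2) (fun n hn => (Finset.mem_Icc.1 (hT' hn)).2)
      hR hR' P hP hPc
  · obtain ⟨c, hc, h⟩ := Pool.Agent.N481.GV.sums_dense f hg (hadm g f hf) δ hδ S hS hM
    refine ⟨c, hc, ?_⟩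
    filter_upwards [h] with X hX
    refine hX.trans ?_
    rw [Nat.cast_le]
    apply Set.ncard_le_ncard
    · rintro n ⟨h1, a, ha, b, hb, -, -, h2⟩
      exact ⟨h1, a, ha, b, hb, h2⟩
    · exact (Set.finite_Icc 0 X).subset (fun n hn => ⟨Nat.zero_le _, hn.1⟩)
  · exact Pool.Agent.N481.GV.basis f hg (hadm g f hf) δ hδ S hS hM
  · exact (Pool.Agent.X69.Ric.sys_ppc f hg2 (hadm g f hf) S δ hδ hS hM).2
  · have : NeZero g := ⟨by omega⟩
    obtain ⟨r₀, -, h⟩ := Pool.Agent.X69.Ric.sys_almost f (hadm g f hf)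
    exact ⟨r₀, fun r hr => ⟨h r hr, fun n hn i p hp hd => ((hn i).2 p hp hd).le⟩⟩
  · obtain ⟨r₀, hr₀, h⟩ := Pool.Agent.N481.GV.psys_four.many
    refine ⟨r₀, fun r hr => ⟨?_, ?_⟩⟩
    · have h1 := h r hr
      have e : Pool.Agent.X69.Ric.AVp (fun (n : ℕ) (_ : Fin 1) => 4 * n ^ 2 + 1) r = AlmostAtPrimes r := by
        ext n
        constructor
        · rintro ⟨h2, h3⟩
          exact ⟨h2, (h3 0).1, (h3 0).2⟩
        · rintro ⟨h2, h3, h4⟩
          exact ⟨h2, fun _ => ⟨h3, h4⟩⟩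
      rw [e] at h1
      exact h1
    · rintro p ⟨hp, -, h3⟩ i q hq hd
      have hr2 : 2 ≤ r := hr₀.trans hr
      fin_cases i
      · have h4 : (q : ℤ) ∣ (X : ℤ[X]).eval (p : ℤ) := hd
        rw [eval_X] at h4
        exact (Pool.Agent.TH977.PW.rpow_lt_dvd r p q hr2 hp hq (Int.natCast_dvd_natCast.1 h4)).le
      · have h4 : (q : ℤ) ∣ (4 * X ^ 2 + 1 : ℤ[X]).eval (p : ℤ) := hd
        rw [Pool.Agent.N481.GV.eval_four] at h4
        have h5 : (q : ℤ) ∣ ((4 * p ^ 2 + 1 : ℕ) : ℤ) := by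
          push_cast
          exact h4
        exact (h3 q hq (Int.natCast_dvd_natCast.1 h5)).le

end Pool.Agent.Results.MP_f1a94e_nt.AdditiveStructure
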